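import Pool.Agent.Q269.GR.StF

/-!
# Project GR, job SIG: the Frobenius automorphism of the function field
-/

set_option autoImplicit false
set_option linter.all false

open Polynomial

namespace Pool.Agent.Q190.GR

open Pool.Agent.Q269.GR

section basics

variable {k k' : Type} [Field k] [Fintype k] [Field k'] [Algebra k k']

theorem fr_apply (x : k') : fr k x = x ^ Fintype.card k := rfl

theorem fr_alg (c : k) : fr k (algebraMap k k' c) = algebraMap k k' c := by
  rw [fr_apply, ← map_pow, FiniteField.pow_card]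

theorem fr_bij [Finite k'] : Function.Bijective (fr k : k' → k') :=
  Finite.injective_iff_bijective.1 (fr k : k' →+* k').injective

theorem fr_iterate (n : ℕ) (x : k') : (fr k)^[n] x = x ^ (Fintype.card k ^ n) := by
  induction n generalizing x with
  | zero => simp
  | succ n ih =>
    rw [Function.iterate_succ_apply, ih, fr_apply, ← pow_mul, pow_succ']

theorem ph_iterate_coeff (n : ℕ) (p : k'[X]) (i : ℕ) :
    ((ph k)^[n] p).coeff i = (fr k)^[n] (p.coeff i) := by
  induction n generalizing p with
  | zero => rfl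
  | succ n ih =>
    rw [Function.iterate_succ_apply, ih, Function.iterate_succ_apply]
    unfold ph
    rw [coeff_map]

theorem ph_iterate_finrank [Finite k'] (p : k'[X]) : (ph k)^[Module.finrank k k'] p = p := by
  have : Fintype k' := Fintype.ofFinite k'
  ext i
  rw [ph_iterate_coeff, fr_iterate, ← Module.card_eq_pow_finrank (K := k) (V := k'),
    FiniteField.pow_card]

theorem mem_range_of_fr {x : k'} (hx : fr k x = x) : x ∈ Set.range (algebraMap k k') := by
  have h1 : (X ^ Fintype.card k - X : k[X]).natDegree = Fintype.card k :=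
    FiniteField.X_pow_card_sub_X_natDegree_eq k Fintype.one_lt_card
  have h0 : (X ^ Fintype.card k - X : k[X]) ≠ 0 :=
    FiniteField.X_pow_card_sub_X_ne_zero k Fintype.one_lt_card
  have hs : (X ^ Fintype.card k - X : k[X]).Splits := by
    rw [splits_iff_card_roots, h1, FiniteField.roots_X_pow_card_sub_X k, ← Finset.card_def,
      Finset.card_univ]
  have h2 : (((X ^ Fintype.card k - X : k[X])).map (algebraMap k k')).IsRoot x := by
    rw [IsRoot.def, Polynomial.map_sub, Polynomial.map_pow, map_X, eval_sub, eval_pow, eval_X,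
      ← fr_apply, hx, sub_self]
  exact hs.mem_range_of_isRoot h0 h2

theorem ph_map (p : k[X]) : ph k (p.map (algebraMap k k')) = p.map (algebraMap k k') := by
  ext i
  unfold ph
  rw [coeff_map, coeff_map, fr_alg]

theorem exists_of_ph {p : k'[X]} (hp : ph k p = p) : ∃ p0 : k[X], p0.map (algebraMap k k') = p := by
  have h1 : ∀ i, p.coeff i ∈ Set.range (algebraMap k k') := by
    intro i
    apply mem_range_of_fr
    have h2 := congrArg (fun r : k'[X] => r.coeff i) hp
    simp only [ph, coeff_map] at h2
    exact h2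
  have h3 : p ∈ Polynomial.lifts (algebraMap k k') := by
    rw [Polynomial.lifts_iff_coeff_lifts]
    exact h1
  exact (Polynomial.mem_lifts p).1 h3

theorem ph_mul (p r : k'[X]) : ph k (p * r) = ph k p * ph k r := by
  unfold ph
  rw [Polynomial.map_mul]

end basics

section sigma

variable (k k' K E : Type) [Field k] [Fintype k] [Field k'] [Finite k'] [Algebra k k']
  [Field K] [Algebra k[X] K] [IsFractionRing k[X] K] [Field E] [Algebra k'[X] E]
  [IsFractionRing k'[X] E]

/-- the Frobenius automorphism of `k'` -/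
noncomputable def frE : k' ≃+* k' := RingEquiv.ofBijective (fr k) fr_bij

/-- the automorphism of the polynomial ring -/
noncomputable def phE : k'[X] ≃+* k'[X] := Polynomial.mapEquiv (frE k k')

theorem phE_apply (p : k'[X]) : phE k k' p = ph k p := rfl

/-- the Frobenius automorphism of the function field -/
noncomputable def sigE : E ≃+* E := IsFractionRing.ringEquivOfRingEquiv (A := k'[X]) (B := k'[X]) (phE k k')

theorem sigE_alg (p : k'[X]) :
    sigE k k' E (algebraMap k'[X] E p) = algebraMap k'[X] E (ph k p) := by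
  unfold sigE
  rw [IsFractionRing.ringEquivOfRingEquiv_algebraMap, phE_apply]

/-- the map of polynomial rings into the function field -/
noncomputable def emP : k[X] →+* E := (algebraMap k'[X] E).comp (mapRingHom (algebraMap k k'))

theorem emP_inj : Function.Injective (emP k k' E) := by
  unfold emP
  rw [RingHom.coe_comp]
  refine (IsFractionRing.injective k'[X] E).comp ?_
  rw [coe_mapRingHom]
  exact Polynomial.map_injective _ (algebraMap k k').injective

/-- the embedding of the function fields -/
noncomputable def emE : K →+* E := IsFractionRing.lift (emP_inj k k' E)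

theorem emE_alg (p : k[X]) : emE k k' K E (algebraMap k[X] K p) = mm k' E p := by
  unfold emE
  rw [IsFractionRing.lift_algebraMap]
  rfl

variable {k k' K E}

/-- the iterates of an automorphism with `IsSg` on polynomials -/
theorem sg_iterate {σ : E ≃+* E} (hσ : IsSg k k' σ) (n : ℕ) (p : k'[X]) :
    σ^[n] (algebraMap k'[X] E p) = algebraMap k'[X] E ((ph k)^[n] p) := by
  induction n generalizing p with
  | zero => rfl
  | succ n ih => rw [Function.iterate_succ_apply, hσ.eq, ih, Function.iterate_succ_apply]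

theorem sg_div_iterate (σ : E ≃+* E) (n : ℕ) (x y : E) : σ^[n] (x / y) = σ^[n] x / σ^[n] y := by
  induction n generalizing x y with
  | zero => rfl
  | succ n ih =>
    rw [Function.iterate_succ_apply, Function.iterate_succ_apply, Function.iterate_succ_apply,
      map_div₀, ih]

theorem sg_finrank {σ : E ≃+* E} (hσ : IsSg k k' σ) (x : E) : σ^[Module.finrank k k'] x = x := by
  obtain ⟨a, b, _, rfl⟩ := IsFractionRing.div_surjective k'[X] x
  rw [sg_div_iterate, sg_iterate hσ, sg_iterate hσ, ph_iterate_finrank, ph_iterate_finrank]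

/-- two automorphisms with `IsSg` are equal -/
theorem sg_unique {σ τ : E ≃+* E} (hσ : IsSg k k' σ) (hτ : IsSg k k' τ) : σ = τ := by
  ext x
  obtain ⟨a, b, _, rfl⟩ := IsFractionRing.div_surjective k'[X] x
  rw [map_div₀, map_div₀, hσ.eq, hσ.eq, hτ.eq, hτ.eq]

theorem sg_em {σ : E ≃+* E} (hσ : IsSg k k' σ) (x : K) :
    σ (emE k k' K E x) = emE k k' K E x := by
  obtain ⟨a, b, _, rfl⟩ := IsFractionRing.div_surjective k[X] x
  rw [map_div₀, map_div₀, emE_alg, emE_alg]
  unfold mm
  rw [hσ.eq, hσ.eq, ph_map, ph_map]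

theorem monic_fraction (x : E) : ∃ N D : k'[X], D.Monic ∧ IsCoprime N D ∧
    x = algebraMap k'[X] E N / algebraMap k'[X] E D := by
  set n := IsFractionRing.num k'[X] x with hn
  set d := (IsFractionRing.den k'[X] x : k'[X]) with hd
  have hd0 : d ≠ 0 := nonZeroDivisors.coe_ne_zero _
  have hcop : IsRelPrime n d := IsFractionRing.num_den_reduced k'[X] x
  have hcop2 : IsCoprime n d := hcop.isCoprime
  have hx : x = algebraMap k'[X] E n / algebraMap k'[X] E d := by
    rw [hn, hd, ← IsFractionRing.mk'_eq_div]
    exact (IsFractionRing.mk'_num_den k'[X] x).symm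
  set c := d.leadingCoeff⁻¹ with hc
  have hlc : d.leadingCoeff ≠ 0 := leadingCoeff_ne_zero.2 hd0
  have hc0 : c ≠ 0 := inv_ne_zero hlc
  have hCu : IsUnit (C c : k'[X]) := isUnit_C.2 (isUnit_iff_ne_zero.2 hc0)
  refine ⟨C c * n, C c * d, ?_, ?_, ?_⟩
  · rw [Monic, leadingCoeff_mul, leadingCoeff_C, hc, inv_mul_cancel₀ hlc]
  · exact (isCoprime_mul_unit_left hCu n d).2 hcop2
  · rw [map_mul, map_mul, hx, mul_div_mul_left]
    intro h0
    rw [map_eq_zero_iff _ (IsFractionRing.injective k'[X] E)] at h0
    exact hc0 (C_eq_zero.1 h0)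

theorem sg_fixed {σ : E ≃+* E} (hσ : IsSg k k' σ) (x : E) (hx : σ x = x) :
    x ∈ Set.range (emE k k' K E) := by
  obtain ⟨N, D, hD, hND, rfl⟩ := monic_fraction (k' := k') x
  have hinj := IsFractionRing.injective k'[X] E
  have hD' : (ph k D).Monic := hD.map _
  have h1 : algebraMap k'[X] E D ≠ 0 := by
    rw [Ne, map_eq_zero_iff _ hinj]; exact hD.ne_zero
  have h2 : algebraMap k'[X] E (ph k D) ≠ 0 := by
    rw [Ne, map_eq_zero_iff _ hinj]; exact hD'.ne_zero
  rw [map_div₀, hσ.eq, hσ.eq, div_eq_div_iff h2 h1, ← map_mul, ← map_mul] at hx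
  have h3 : ph k N * D = N * ph k D := hinj hx
  have h4 : D ∣ ph k D := by
    have h5 : D ∣ N * ph k D := ⟨ph k N, by rw [← h3, mul_comm]⟩
    exact hND.symm.dvd_of_dvd_mul_left h5
  have h6 : (ph k D).natDegree = D.natDegree := by
    unfold ph
    exact natDegree_map_eq_of_injective (fr k : k' →+* k').injective D
  have h7 : ph k D = D := by
    refine (eq_of_monic_of_dvd_of_natDegree_le hD hD' h4 ?_)
    exact h6.le
  rw [h7] at h3
  have h8 : ph k N = N := mul_right_cancel₀ hD.ne_zero h3
  obtain ⟨N0, hN0⟩ := exists_of_ph h8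
  obtain ⟨D0, hD0⟩ := exists_of_ph h7
  refine ⟨algebraMap k[X] K N0 / algebraMap k[X] K D0, ?_⟩
  rw [map_div₀, emE_alg, emE_alg]
  unfold mm
  rw [hN0, hD0]

end sigma

theorem t_SIG : S_SIG := by
  intro k k' K E _ _ _ _ _ _ _ _ _ _ _
  have hσ : IsSg k k' (sigE k k' E) := ⟨fun p => sigE_alg k k' E p⟩
  refine ⟨sigE k k' E, emE k k' K E, hσ, emE_alg k k' K E, sg_finrank hσ, ?_⟩
  intro x
  constructor
  · exact sg_fixed hσ x
  · rintro ⟨y, rfl⟩
    exact sg_em hσ y

end Pool.Agent.Q190.GR
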