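import Pool.Agent.Q269.GR.StB

/-!
# Project GR, job CH1 (helper190 for helper269)
-/

set_option autoImplicit false
set_option linter.all false

open scoped Classical
open Finset

namespace Pool.Agent.Q190.GR

open Pool.Agent.Q269.GR
open Pool.Agent.Y164.PS (sg sg_zero sg_one sg_add abs_sg sg_mul_self)

section four

variable {B : Type} [Fintype B] [AddCommGroup B] [Module F2 B]

noncomputable instance : Fintype (B →ₗ[F2] F2) :=
  @Fintype.ofFinite _ (DFunLike.finite _)

theorem card_dual : (Fintype.card (B →ₗ[F2] F2) : ℝ) = Fintype.card B := by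
  have h1 : Module.Finite F2 B := Module.Finite.of_finite
  have e := (Module.finBasis F2 B).toDualEquiv
  have h2 : Fintype.card B = Fintype.card (B →ₗ[F2] F2) := Fintype.card_congr e.toEquiv
  rw [h2]

theorem sg_neg_of_ne {x : F2} (h : x ≠ 0) : sg x = -1 := if_neg h

/-- orthogonality -/
theorem sum_dual (b : B) : ∑ c : B →ₗ[F2] F2, sg (c b) =
    if b = 0 then (Fintype.card B : ℝ) else 0 := by
  split_ifs with h
  · subst h
    simp only [map_zero, sg_zero, sum_const, card_univ, nsmul_eq_mul, mul_one]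
    exact card_dual
  · have h1 : ∃ c0 : B →ₗ[F2] F2, c0 b ≠ 0 := by
      by_contra hcon
      push Not at hcon
      exact h ((Module.forall_dual_apply_eq_zero_iff F2 b).1 hcon)
    obtain ⟨c0, hc0⟩ := h1
    have h2 : ∑ c : B →ₗ[F2] F2, sg (c b) = ∑ c : B →ₗ[F2] F2, sg ((c + c0) b) :=
      (Equiv.sum_comp (Equiv.addRight c0) (fun c : B →ₗ[F2] F2 => sg (c b))).symm
    have h3 : ∑ c : B →ₗ[F2] F2, sg ((c + c0) b) = -∑ c : B →ₗ[F2] F2, sg (c b) := by
      rw [← sum_neg_distrib]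
      refine sum_congr rfl fun c _ => ?_
      rw [LinearMap.add_apply, sg_add, sg_neg_of_ne hc0]
      ring
    linarith

theorem add_eq_zero_iff_char2 (a b : B) : a + b = 0 ↔ a = b := by
  have h2 : ∀ x : B, x + x = 0 := by
    intro x
    have : (1 + 1 : F2) • x = 0 := by
      rw [show (1 + 1 : F2) = 0 by decide, zero_smul]
    rwa [add_smul, one_smul] at this
  constructor
  · intro h
    have := h2 b
    rw [← this] at h
    exact add_right_cancel h
  · rintro rfl
    exact h2 a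

/-- Fourier coefficient -/
noncomputable def fc (φ : B → ℝ) (c : B →ₗ[F2] F2) : ℝ :=
  (∑ b, φ b * sg (c b)) / Fintype.card B

theorem cardB_pos : (0 : ℝ) < Fintype.card B := by
  have : 0 < Fintype.card B := Fintype.card_pos_iff.mpr ⟨0⟩
  exact_mod_cast this

theorem sum_pair (b b' : B) : ∑ c : B →ₗ[F2] F2, sg (c b) * sg (c b') =
    if b = b' then (Fintype.card B : ℝ) else 0 := by
  have h : ∀ c : B →ₗ[F2] F2, sg (c b) * sg (c b') = sg (c (b + b')) := by
    intro c
    rw [map_add, sg_add]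
  simp only [h, sum_dual, add_eq_zero_iff_char2]

theorem inversion (φ : B → ℝ) (b : B) : φ b = ∑ c : B →ₗ[F2] F2, fc φ c * sg (c b) := by
  have hN := cardB_pos (B := B)
  unfold fc
  have h1 : ∀ c : B →ₗ[F2] F2, (∑ b', φ b' * sg (c b')) / Fintype.card B * sg (c b) =
      ∑ b', φ b' / Fintype.card B * (sg (c b') * sg (c b)) := by
    intro c
    rw [div_mul_eq_mul_div, sum_mul, sum_div]
    refine sum_congr rfl fun b' _ => ?_
    ring
  simp only [h1]
  rw [sum_comm]
  simp only [← mul_sum, sum_pair]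
  simp only [mul_ite, mul_zero, sum_ite_eq', mem_univ, if_true]
  field_simp

theorem parseval (φ : B → ℝ) :
    ∑ c : B →ₗ[F2] F2, fc φ c ^ 2 = (∑ b, φ b ^ 2) / Fintype.card B := by
  have hN := cardB_pos (B := B)
  have h1 : ∀ c : B →ₗ[F2] F2, fc φ c ^ 2 =
      ∑ b, ∑ b', φ b * φ b' / (Fintype.card B : ℝ) ^ 2 * (sg (c b) * sg (c b')) := by
    intro c
    unfold fc
    rw [div_pow, sq (∑ b, φ b * sg (c b)), sum_mul_sum, sum_div]
    refine sum_congr rfl fun b _ => ?_
    rw [sum_div]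
    refine sum_congr rfl fun b' _ => ?_
    ring
  simp only [h1]
  rw [sum_comm]
  have h2 : ∀ b : B, ∑ c : B →ₗ[F2] F2, ∑ b', φ b * φ b' / (Fintype.card B : ℝ) ^ 2 *
      (sg (c b) * sg (c b')) = φ b ^ 2 / Fintype.card B := by
    intro b
    rw [sum_comm]
    simp only [← mul_sum, sum_pair, mul_ite, mul_zero, sum_ite_eq, mem_univ, if_true]
    field_simp
  simp only [h2, sum_div]

theorem parseval_le (φ : B → ℝ) (h : ∀ b, 0 ≤ φ b ∧ φ b ≤ 1) :
    ∑ c : B →ₗ[F2] F2, fc φ c ^ 2 ≤ 1 := by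
  have hN := cardB_pos (B := B)
  rw [parseval, div_le_one hN]
  calc ∑ b, φ b ^ 2 ≤ ∑ _b : B, (1 : ℝ) := by
        refine sum_le_sum fun b _ => ?_
        nlinarith [(h b).1, (h b).2]
    _ = Fintype.card B := by simp

theorem fc_zero (φ : B → ℝ) : fc φ 0 = (∑ b, φ b) / Fintype.card B := by
  unfold fc
  simp [sg_zero]

theorem sub_mean (φ : B → ℝ) (b : B) : φ b - (∑ b, φ b) / Fintype.card B =
    ∑ c : B →ₗ[F2] F2, fc φ c * (if c = 0 then 0 else sg (c b)) := by
  have h1 : ∑ c : B →ₗ[F2] F2, fc φ c * sg (c b) =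
      ∑ c : B →ₗ[F2] F2, (fc φ c * (if c = 0 then 0 else sg (c b)) +
        (if c = 0 then fc φ c else 0)) := by
    refine sum_congr rfl fun c _ => ?_
    split_ifs with h
    · subst h
      simp [sg_zero]
    · simp
  rw [inversion φ b, h1, sum_add_distrib, sum_ite_eq']
  simp [fc_zero]

end four

theorem t_CH1 : S_CH1 := by
  intro Θ₁ Θ₂ W B _ _ _ _ _ _ x v Φ hΦ C hC hS
  have hN := cardB_pos (B := B)
  -- the sums over the fibres
  obtain ⟨S, hSd⟩ : ∃ S : W × Θ₁ × (B →ₗ[F2] F2) → ℝ, S = fun q =>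
    if q.2.2 = 0 then 0 else ∑ p', (if v p' = q.1 then (1 : ℝ) else 0) * sg (q.2.2 (x q.2.1 p')) :=
    ⟨_, rfl⟩
  have hmain : ∑ p, ∑ p', (Φ p (v p') (x p p') - (∑ b, Φ p (v p') b) / Fintype.card B) =
      ∑ q : W × Θ₁ × (B →ₗ[F2] F2), fc (Φ q.2.1 q.1) q.2.2 * S q := by
    have e : ∑ q : W × Θ₁ × (B →ₗ[F2] F2), fc (Φ q.2.1 q.1) q.2.2 * S q =
        ∑ p : Θ₁, ∑ w : W, ∑ c : B →ₗ[F2] F2, fc (Φ p w) c * S (w, p, c) := by
      rw [Fintype.sum_prod_type]
      simp only [Fintype.sum_prod_type]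
      exact Finset.sum_comm
    rw [e]
    refine sum_congr rfl fun p _ => ?_
    have h1 : ∀ p', Φ p (v p') (x p p') - (∑ b, Φ p (v p') b) / Fintype.card B =
        ∑ w : W, ∑ c : B →ₗ[F2] F2, fc (Φ p w) c *
          (if c = 0 then 0 else (if v p' = w then (1 : ℝ) else 0) * sg (c (x p p'))) := by
      intro p'
      rw [sub_mean]
      rw [Finset.sum_eq_single (v p')]
      · simp
      · intro w _ hw
        refine sum_eq_zero fun c _ => ?_
        rw [if_neg (Ne.symm hw)]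
        simp
      · simp
    simp only [h1]
    rw [Finset.sum_comm]
    refine sum_congr rfl fun w _ => ?_
    rw [Finset.sum_comm]
    refine sum_congr rfl fun c _ => ?_
    rw [hSd, ← mul_sum]
    congr 1
    by_cases h : c = 0
    · simp [h]
    · simp only [if_neg h]
  have hA : ∑ q : W × Θ₁ × (B →ₗ[F2] F2), (fc (Φ q.2.1 q.1) q.2.2) ^ 2 ≤
      Fintype.card W * Fintype.card Θ₁ := by
    rw [Fintype.sum_prod_type]
    simp only [Fintype.sum_prod_type]
    calc ∑ w : W, ∑ p : Θ₁, ∑ c : B →ₗ[F2] F2, fc (Φ p w) c ^ 2 ≤ ∑ _w : W, ∑ _p : Θ₁, (1 : ℝ) :=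
          sum_le_sum fun w _ => sum_le_sum fun p _ => parseval_le _ fun b => hΦ p w b
      _ = _ := by simp
  have hB : ∑ q : W × Θ₁ × (B →ₗ[F2] F2), (S q) ^ 2 ≤
      Fintype.card B * (C * Fintype.card Θ₂) := by
    have h1 : ∑ q : W × Θ₁ × (B →ₗ[F2] F2), (S q) ^ 2 =
        ∑ c : B →ₗ[F2] F2, ∑ w : W, ∑ p : Θ₁, (S (w, p, c)) ^ 2 := by
      rw [Fintype.sum_prod_type]
      simp only [Fintype.sum_prod_type]
      calc ∑ w : W, ∑ p : Θ₁, ∑ c : B →ₗ[F2] F2, (S (w, p, c)) ^ 2 =
            ∑ w : W, ∑ c : B →ₗ[F2] F2, ∑ p : Θ₁, (S (w, p, c)) ^ 2 :=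
            sum_congr rfl fun w _ => sum_comm
        _ = _ := sum_comm
    rw [h1]
    have h2 : ∀ c : B →ₗ[F2] F2, ∑ w : W, ∑ p : Θ₁, (S (w, p, c)) ^ 2 ≤ C * Fintype.card Θ₂ := by
      intro c
      by_cases hc : c = 0
      · rw [hSd]
        simp only [hc, if_true]
        simp only [ne_eq, OfNat.ofNat_ne_zero, not_false_eq_true, zero_pow, sum_const_zero]
        positivity
      · calc ∑ w : W, ∑ p : Θ₁, (S (w, p, c)) ^ 2 ≤
              ∑ w : W, C * ∑ p', (if v p' = w then (1 : ℝ) else 0) ^ 2 := by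
              refine sum_le_sum fun w _ => ?_
              have := hS c hc (fun p' => if v p' = w then (1 : ℝ) else 0)
              rw [hSd]
              simp only [if_neg hc]
              exact this
          _ = C * Fintype.card Θ₂ := by
              rw [← mul_sum, sum_comm]
              congr 1
              have : ∀ p' : Θ₂, ∑ w : W, (if v p' = w then (1 : ℝ) else 0) ^ 2 = 1 := by
                intro p'
                rw [Finset.sum_eq_single (v p')]
                · simp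
                · intro w _ hw
                  rw [if_neg (Ne.symm hw)]
                  simp
                · simp
              simp only [this]
              simp
    calc ∑ c : B →ₗ[F2] F2, ∑ w : W, ∑ p : Θ₁, (S (w, p, c)) ^ 2 ≤
          ∑ _c : B →ₗ[F2] F2, C * (Fintype.card Θ₂ : ℝ) := sum_le_sum fun c _ => h2 c
      _ = _ := by
          rw [sum_const, card_univ, nsmul_eq_mul, card_dual]
  rw [hmain]
  apply Real.abs_le_sqrt
  calc (∑ q : W × Θ₁ × (B →ₗ[F2] F2), fc (Φ q.2.1 q.1) q.2.2 * S q) ^ 2 ≤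
        (∑ q : W × Θ₁ × (B →ₗ[F2] F2), (fc (Φ q.2.1 q.1) q.2.2) ^ 2) *
          ∑ q : W × Θ₁ × (B →ₗ[F2] F2), (S q) ^ 2 := sum_mul_sq_le_sq_mul_sq _ _ _
    _ ≤ (Fintype.card W * Fintype.card Θ₁) * (Fintype.card B * (C * Fintype.card Θ₂)) :=
        mul_le_mul hA hB (sum_nonneg fun q _ => sq_nonneg _) (by positivity)
    _ = _ := by ring

end Pool.Agent.Q190.GR
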