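import Pool.Agent.Q269.GR.StB

/-!
# Project GR, job CHN (helper190 for helper269)
-/

set_option autoImplicit false
set_option linter.all false

open scoped Classical
open Finset

namespace Pool.Agent.Q190.GR

open Pool.Agent.Q269.GR
open Pool.Agent.Y164.PS (sg)

section upd

variable {m : ℕ} {B : Fin m → Fin m → Type}

/-- change the coordinate `(i, j)` -/
def upd (s : ∀ i j, B i j) (i j : Fin m) (b : B i j) : ∀ i j, B i j :=
  Function.update s i (Function.update (s i) j b)

theorem upd_self (s : ∀ i j, B i j) (i j : Fin m) (b : B i j) : upd s i j b i j = b := by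
  unfold upd
  rw [Function.update_self, Function.update_self]

theorem upd_ne (s : ∀ i j, B i j) (i j : Fin m) (b : B i j) (i' j' : Fin m)
    (h : ¬ (i' = i ∧ j' = j)) : upd s i j b i' j' = s i' j' := by
  unfold upd
  by_cases hi : i' = i
  · subst hi
    have hj : j' ≠ j := fun hj => h ⟨rfl, hj⟩
    rw [Function.update_self, Function.update_of_ne hj]
  · rw [Function.update_of_ne hi]

theorem upd_ext (s s' : ∀ i j, B i j) (h : ∀ i j, s i j = s' i j) : s = s' := by
  funext i j
  exact h i j

theorem upd_upd (s : ∀ i j, B i j) (i j : Fin m) (b : B i j) :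
    upd (upd s i j b) i j (s i j) = s := by
  apply upd_ext
  intro i' j'
  by_cases h : i' = i ∧ j' = j
  · obtain ⟨rfl, rfl⟩ := h
    rw [upd_self]
  · rw [upd_ne _ _ _ _ _ _ h, upd_ne _ _ _ _ _ _ h]

theorem sum_upd [∀ i j, Fintype (B i j)] (i j : Fin m) (h : (∀ i j, B i j) → ℝ) :
    ∑ s, ∑ b : B i j, h (upd s i j b) = Fintype.card (B i j) * ∑ s, h s := by
  let e : ((∀ i j, B i j) × B i j) ≃ ((∀ i j, B i j) × B i j) :=
    { toFun := fun q => (upd q.1 i j q.2, q.1 i j)
      invFun := fun q => (upd q.1 i j q.2, q.1 i j)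
      left_inv := by
        rintro ⟨s, b⟩
        simp only [upd_upd, upd_self]
      right_inv := by
        rintro ⟨s, b⟩
        simp only [upd_upd, upd_self] }
  have h1 : ∑ q : (∀ i j, B i j) × B i j, h (upd q.1 i j q.2) =
      ∑ q : (∀ i j, B i j) × B i j, h q.1 :=
    Equiv.sum_comp e (fun q => h q.1)
  rw [Fintype.sum_prod_type, Fintype.sum_prod_type] at h1
  rw [h1]
  simp only [sum_const, card_univ, nsmul_eq_mul]
  rw [mul_sum]

end upd

theorem sum_update {K : Type} [Fintype K] [DecidableEq K] (E : K → Type) [∀ k, Fintype (E k)] (k : K)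
    (h : (∀ k, E k) → ℝ) :
    ∑ s, ∑ b : E k, h (Function.update s k b) = Fintype.card (E k) * ∑ s, h s := by
  let e : ((∀ k, E k) × E k) ≃ ((∀ k, E k) × E k) :=
    { toFun := fun q => (Function.update q.1 k q.2, q.1 k)
      invFun := fun q => (Function.update q.1 k q.2, q.1 k)
      left_inv := by
        rintro ⟨s, b⟩
        simp
      right_inv := by
        rintro ⟨s, b⟩
        simp }
  have h1 : ∑ q : (∀ k, E k) × E k, h (Function.update q.1 k q.2) =
      ∑ q : (∀ k, E k) × E k, h q.1 :=
    Equiv.sum_comp e (fun q => h q.1)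
  rw [Fintype.sum_prod_type, Fintype.sum_prod_type] at h1
  rw [h1]
  simp only [sum_const, card_univ, nsmul_eq_mul]
  rw [mul_sum]

section step

variable {m : ℕ} {Θ : Fin m → Type} [∀ i, Fintype (Θ i)] {B : Fin m → Fin m → Type}
  [∀ i j, Fintype (B i j)] [∀ i j, AddCommGroup (B i j)] [∀ i j, Module F2 (B i j)]
  {𝒯 : Fin m → Type} [∀ i, Fintype (𝒯 i)]

/-- the coordinates which have been averaged -/
def Av {m : ℕ} (a b : ℕ) (i j : Fin m) : Prop := a < (j : ℕ) ∨ ((j : ℕ) = a ∧ b ≤ (i : ℕ))

/-- replace the coordinates in `A` -/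
noncomputable def mix (A : Fin m → Fin m → Prop) (s y : ∀ i j, B i j) : ∀ i j, B i j :=
  fun i j => if A i j then s i j else y i j

/-- the step for fixed values of the averaged bits -/
theorem step_fix (hCH1 : S_CH1) (t : ∀ i, Θ i → 𝒯 i) (x : ∀ i j, Θ i → Θ j → B i j)
    (i j : Fin m) (hij : i < j) (η : ℝ) (hη : 0 ≤ η)
    (hx : ∀ c : B i j →ₗ[F2] F2, c ≠ 0 → ∀ g : Θ j → ℝ,
      ∑ p, (∑ p', g p' * sg (c (x i j p p'))) ^ 2 ≤
        η * Fintype.card (Θ i) * Fintype.card (Θ j) * ∑ p', g p' ^ 2)
    (Φ : (∀ i, 𝒯 i) → (∀ i j, B i j) → ℝ) (hΦ : ∀ τ s, 0 ≤ Φ τ s ∧ Φ τ s ≤ 1)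
    (hΦd : ∀ τ s s', (∀ i j, i < j → s i j = s' i j) → Φ τ s = Φ τ s')
    (s : ∀ i j, B i j) :
    |∑ T : (∀ i, Θ i), (Φ (fun i => t i (T i)) (mix (Av j (i + 1)) s (fun i j => x i j (T i) (T j))) -
      (∑ b, Φ (fun i => t i (T i))
        (upd (mix (Av j (i + 1)) s (fun i j => x i j (T i) (T j))) i j b)) /
          Fintype.card (B i j))| ≤
    (∏ i, (Fintype.card (Θ i) : ℝ)) *
      Real.sqrt (Fintype.card (𝒯 j) * (∏ l, if l ≤ i then (Fintype.card (B l j) : ℝ) else 1) * η) := by
  have hne : i ≠ j := ne_of_lt hij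
  obtain ⟨F, hF⟩ : ∃ F : (∀ i, Θ i) → ℝ, F = fun T =>
    (Φ (fun i => t i (T i)) (mix (Av j (i + 1)) s (fun i j => x i j (T i) (T j))) -
      (∑ b, Φ (fun i => t i (T i))
        (upd (mix (Av j (i + 1)) s (fun i j => x i j (T i) (T j))) i j b)) /
          Fintype.card (B i j)) := ⟨_, rfl⟩
  rw [show (∑ T : (∀ i, Θ i), (Φ (fun i => t i (T i))
      (mix (Av j (i + 1)) s (fun i j => x i j (T i) (T j))) -
      (∑ b, Φ (fun i => t i (T i))
        (upd (mix (Av j (i + 1)) s (fun i j => x i j (T i) (T j))) i j b)) /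
          Fintype.card (B i j))) = ∑ T, F T by rw [hF]]
  obtain ⟨E, hE⟩ : ∃ E, E = Real.sqrt (Fintype.card (𝒯 j) *
    (∏ l, if l ≤ i then (Fintype.card (B l j) : ℝ) else 1) * η) := ⟨_, rfl⟩
  rw [← hE]
  have hE0 : 0 ≤ E := by rw [hE]; exact Real.sqrt_nonneg _
  -- fixed values of the other elements
  have hfix : ∀ T : (∀ i, Θ i),
      |∑ p : Θ i, ∑ p' : Θ j, F (Function.update (Function.update T i p) j p')| ≤
        Fintype.card (Θ i) * Fintype.card (Θ j) * E := by
    intro T
    obtain ⟨Y, hY⟩ : ∃ Y : Θ i → (∀ l : {l : Fin m // l < i}, B l j) → (∀ i j, B i j),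
      Y = fun p w i' => if h : i' < i then
        Function.update (fun j' => x i' j' (Function.update T i p i') (Function.update T i p j'))
          j (w ⟨i', h⟩)
        else fun j' => x i' j' (Function.update T i p i') (Function.update T i p j') := ⟨_, rfl⟩
    obtain ⟨Ψ, hΨ⟩ : ∃ Ψ : Θ i → (𝒯 j × (∀ l : {l : Fin m // l < i}, B l j)) → B i j → ℝ,
      Ψ = fun p w b => Φ (Function.update (Function.update (fun k => t k (T k)) i (t i p)) j w.1)
        (upd (mix (Av j (i + 1)) s (Y p w.2)) i j b) := ⟨_, rfl⟩
    have h1 := hCH1 (Θ i) (Θ j) (𝒯 j × (∀ l : {l : Fin m // l < i}, B l j)) (B i j) (x i j)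
      (fun p' => (t j p', fun l => x l j (T l) p')) Ψ (fun p w b => by rw [hΨ]; exact hΦ _ _)
      (η * Fintype.card (Θ i) * Fintype.card (Θ j)) (by positivity) hx
    have hτ : ∀ p p', (fun k => t k (Function.update (Function.update T i p) j p' k)) =
        Function.update (Function.update (fun k => t k (T k)) i (t i p)) j (t j p') := by
      intro p p'
      funext k
      by_cases hkj : k = j
      · subst hkj
        simp
      · rw [Function.update_of_ne hkj, Function.update_of_ne hkj]
        by_cases hki : k = i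
        · subst hki
          simp
        · rw [Function.update_of_ne hki, Function.update_of_ne hki]
    have hval : ∀ p p' b, Φ (fun k => t k (Function.update (Function.update T i p) j p' k))
        (upd (mix (Av j (i + 1)) s (fun i' j' => x i' j'
          (Function.update (Function.update T i p) j p' i')
          (Function.update (Function.update T i p) j p' j'))) i j b) =
        Ψ p (t j p', fun l => x l j (T l) p') b := by
      intro p p' b
      rw [hΨ, hτ]
      apply hΦd
      intro i' j' hij'
      by_cases h : i' = i ∧ j' = j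
      · obtain ⟨rfl, rfl⟩ := h
        rw [upd_self, upd_self]
      · rw [upd_ne _ _ _ _ _ _ h, upd_ne _ _ _ _ _ _ h]
        unfold mix
        by_cases hA : Av (j : ℕ) ((i : ℕ) + 1) i' j'
        · rw [if_pos hA, if_pos hA]
        · rw [if_neg hA, if_neg hA]
          unfold Av at hA
          push Not at hA
          obtain ⟨hA1, hA2⟩ := hA
          rw [hY]
          have hi'j : i' ≠ j := by
            intro hh
            rw [hh] at hij'
            exact absurd hij' (not_lt.2 hA1)
          by_cases hj : j' = j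
          · subst hj
            have h2 : (i' : ℕ) < i := by
              have h3 := hA2 rfl
              have h4 : (i' : ℕ) ≠ i := fun hh => h ⟨Fin.ext hh, rfl⟩
              omega
            have h2' : i' < i := h2
            simp only [dif_pos h2', Function.update_self]
            rw [Function.update_of_ne hi'j, Function.update_of_ne (ne_of_lt h2')]
          · have e1 : Function.update (Function.update T i p) j p' j' = Function.update T i p j' :=
              Function.update_of_ne hj _ _
            have e2 : Function.update (Function.update T i p) j p' i' = Function.update T i p i' :=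
              Function.update_of_ne hi'j _ _
            beta_reduce
            rw [e1, e2]
            by_cases h2' : i' < i
            · simp only [dif_pos h2']
              rw [Function.update_of_ne hj]
            · simp only [dif_neg h2']
    have hself : ∀ p p', mix (Av j (i + 1)) s (fun i' j' => x i' j'
          (Function.update (Function.update T i p) j p' i')
          (Function.update (Function.update T i p) j p' j')) =
        upd (mix (Av j (i + 1)) s (fun i' j' => x i' j'
          (Function.update (Function.update T i p) j p' i')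
          (Function.update (Function.update T i p) j p' j'))) i j (x i j p p') := by
      intro p p'
      apply upd_ext
      intro i' j'
      by_cases h : i' = i ∧ j' = j
      · obtain ⟨rfl, rfl⟩ := h
        rw [upd_self]
        unfold mix
        have hA : ¬ Av (j' : ℕ) ((i' : ℕ) + 1) i' j' := by
          unfold Av
          omega
        rw [if_neg hA]
        have e1 : Function.update (Function.update T i' p) j' p' i' = p := by
          rw [Function.update_of_ne hne, Function.update_self]
        have e2 : Function.update (Function.update T i' p) j' p' j' = p' := Function.update_self _ _ _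
        beta_reduce
        rw [e1, e2]
      · rw [upd_ne _ _ _ _ _ _ h]
    have h2 : ∀ p p', F (Function.update (Function.update T i p) j p') =
        Ψ p (t j p', fun l => x l j (T l) p') (x i j p p') -
          (∑ b, Ψ p (t j p', fun l => x l j (T l) p') b) / Fintype.card (B i j) := by
      intro p p'
      rw [hF]
      simp only
      rw [← hval p p' (x i j p p'), ← hself p p']
      congr 2
      exact sum_congr rfl fun b _ => hval p p' b
    simp only [h2]
    refine h1.trans (le_of_eq ?_)
    have hcW : (Fintype.card (𝒯 j × (∀ l : {l : Fin m // l < i}, B l j)) : ℝ) * Fintype.card (B i j) =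
        Fintype.card (𝒯 j) * ∏ l, if l ≤ i then (Fintype.card (B l j) : ℝ) else 1 := by
      rw [Fintype.card_prod, Fintype.card_pi]
      push_cast
      rw [mul_assoc]
      congr 1
      have e1 : ∏ l : {l : Fin m // l < i}, (Fintype.card (B l j) : ℝ) =
          ∏ l ∈ univ.filter (fun l => l < i), (Fintype.card (B l j) : ℝ) :=
        (Finset.prod_subtype (univ.filter (fun l => l < i)) (by simp)
          (fun l => (Fintype.card (B l j) : ℝ))).symm
      have e2 : ∏ l, (if l ≤ i then (Fintype.card (B l j) : ℝ) else 1) =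
          ∏ l ∈ univ.filter (fun l => l ≤ i), (Fintype.card (B l j) : ℝ) :=
        (Finset.prod_filter _ _).symm
      have e3 : univ.filter (fun l : Fin m => l ≤ i) = insert i (univ.filter (fun l => l < i)) := by
        ext l
        simp only [mem_filter, mem_univ, true_and, mem_insert]
        exact le_iff_eq_or_lt
      rw [e1, e2, e3, Finset.prod_insert (by simp), mul_comm]
    have e4 : (Fintype.card (Θ i) : ℝ) * Fintype.card (Θ j) *
        Fintype.card (𝒯 j × (∀ l : {l : Fin m // l < i}, B l j)) * Fintype.card (B i j) *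
        (η * Fintype.card (Θ i) * Fintype.card (Θ j)) =
        ((Fintype.card (Θ i) : ℝ) * Fintype.card (Θ j)) ^ 2 *
          (Fintype.card (𝒯 j) * (∏ l, if l ≤ i then (Fintype.card (B l j) : ℝ) else 1) * η) := by
      rw [← hcW]
      ring
    rw [e4, Real.sqrt_mul (by positivity), Real.sqrt_sq (by positivity), hE]
  -- the sum over everything
  have hsum : (Fintype.card (Θ i) : ℝ) * Fintype.card (Θ j) * ∑ T, F T =
      ∑ T, ∑ p : Θ i, ∑ p' : Θ j, F (Function.update (Function.update T i p) j p') := by
    have e1 := sum_update Θ j F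
    have e2 := sum_update Θ i (fun T => ∑ p' : Θ j, F (Function.update T j p'))
    rw [e2, e1]
    ring
  have hprod : (∏ i, (Fintype.card (Θ i) : ℝ)) = Fintype.card (∀ i, Θ i) := by
    rw [Fintype.card_pi]
    push_cast
    rfl
  by_cases h0 : (Fintype.card (Θ i) : ℝ) * Fintype.card (Θ j) = 0
  · have h3 : IsEmpty (∀ i, Θ i) := by
      rcases mul_eq_zero.1 h0 with h | h
      · have h' : Fintype.card (Θ i) = 0 := by exact_mod_cast h
        have := Fintype.card_eq_zero_iff.1 h'
        exact ⟨fun T => this.elim (T i)⟩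
      · have h' : Fintype.card (Θ j) = 0 := by exact_mod_cast h
        have := Fintype.card_eq_zero_iff.1 h'
        exact ⟨fun T => this.elim (T j)⟩
    rw [Fintype.sum_empty, abs_zero]
    positivity
  · have hpos : 0 < (Fintype.card (Θ i) : ℝ) * Fintype.card (Θ j) :=
      lt_of_le_of_ne (by positivity) (Ne.symm h0)
    have h4 : (Fintype.card (Θ i) : ℝ) * Fintype.card (Θ j) * |∑ T, F T| ≤
        (Fintype.card (Θ i) : ℝ) * Fintype.card (Θ j) * ((∏ i, (Fintype.card (Θ i) : ℝ)) * E) := by
      have h5 : (Fintype.card (Θ i) : ℝ) * Fintype.card (Θ j) * |∑ T, F T| =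
          |(Fintype.card (Θ i) : ℝ) * Fintype.card (Θ j) * ∑ T, F T| := by
        rw [abs_mul, abs_of_pos hpos]
      rw [h5, hsum]
      calc |∑ T, ∑ p : Θ i, ∑ p' : Θ j, F (Function.update (Function.update T i p) j p')| ≤
            ∑ T, |∑ p : Θ i, ∑ p' : Θ j, F (Function.update (Function.update T i p) j p')| :=
            abs_sum_le_sum_abs _ _
        _ ≤ ∑ _T : (∀ i, Θ i), Fintype.card (Θ i) * Fintype.card (Θ j) * E :=
            sum_le_sum fun T _ => hfix T
        _ = _ := by
            rw [sum_const, card_univ, nsmul_eq_mul, hprod]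
            ring
    exact le_of_mul_le_mul_left h4 hpos

end step

theorem tele (m : ℕ) (H : ℕ → ℝ) (e : Fin m → ℝ) (h : ∀ a : Fin m, |H (a + 1) - H a| ≤ e a) :
    |H m - H 0| ≤ ∑ a, e a := by
  rw [← Finset.sum_range_sub]
  calc |∑ a ∈ range m, (H (a + 1) - H a)| ≤ ∑ a ∈ range m, |H (a + 1) - H a| :=
        abs_sum_le_sum_abs _ _
    _ = ∑ a : Fin m, |H (a + 1) - H a| := (Fin.sum_univ_eq_sum_range (fun a => |H (a + 1) - H a|) m).symm
    _ ≤ ∑ a, e a := sum_le_sum fun a _ => h a

theorem t_CHN (hCH1 : S_CH1) : S_CHN := by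
  intro m Θ _ B _ _ _ 𝒯 _ t x η hη hx Φ hΦ hΦd
  obtain ⟨H, hH⟩ : ∃ H : ℕ → ℕ → ℝ, H = fun a b => ∑ s : (∀ i j, B i j), ∑ T : (∀ i, Θ i),
    Φ (fun i => t i (T i)) (mix (Av a b) s (fun i j => x i j (T i) (T j))) := ⟨_, rfl⟩
  obtain ⟨N, hN⟩ : ∃ N : ℝ, N = Fintype.card (∀ i j, B i j) := ⟨_, rfl⟩
  have hN0 : 0 < N := by
    rw [hN]
    have : 0 < Fintype.card (∀ i j, B i j) := Fintype.card_pos_iff.mpr ⟨fun i j => 0⟩
    exact_mod_cast this
  obtain ⟨e, he⟩ : ∃ e : Fin m → Fin m → ℝ, e = fun i j => if i < j then
      Real.sqrt (Fintype.card (𝒯 j) * (∏ l, if l ≤ i then (Fintype.card (B l j) : ℝ) else 1) * η i j)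
      else 0 := ⟨_, rfl⟩
  obtain ⟨Pr, hPr⟩ : ∃ Pr : ℝ, Pr = ∏ i, (Fintype.card (Θ i) : ℝ) := ⟨_, rfl⟩
  have hPr0 : 0 ≤ Pr := by rw [hPr]; positivity
  -- one step
  have hstep : ∀ j i : Fin m, |H j ((i : ℕ) + 1) - H j i| ≤ N * (Pr * e i j) := by
    intro j i
    by_cases hij : i < j
    · -- the averaging
      have h1 : H j i = ∑ s : (∀ i j, B i j), ∑ T : (∀ i, Θ i), (∑ b, Φ (fun i => t i (T i))
          (upd (mix (Av j (i + 1)) s (fun i j => x i j (T i) (T j))) i j b)) /
          Fintype.card (B i j) := by
        rw [hH]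
        simp only
        rw [sum_comm]
        rw [sum_comm (s := (univ : Finset (∀ i j, B i j)))]
        refine sum_congr rfl fun T _ => ?_
        have h2 := sum_upd i j (fun s : (∀ i j, B i j) => Φ (fun i => t i (T i))
          (mix (Av j i) s (fun i j => x i j (T i) (T j))))
        have h3 : ∀ (s : ∀ i j, B i j) (b : B i j),
            mix (Av j i) (upd s i j b) (fun i j => x i j (T i) (T j)) =
            upd (mix (Av j (i + 1)) s (fun i j => x i j (T i) (T j))) i j b := by
          intro s b
          apply upd_ext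
          intro i' j'
          by_cases h : i' = i ∧ j' = j
          · obtain ⟨rfl, rfl⟩ := h
            rw [upd_self]
            unfold mix
            have hA : Av (j' : ℕ) (i' : ℕ) i' j' := Or.inr ⟨rfl, le_rfl⟩
            rw [if_pos hA, upd_self]
          · rw [upd_ne _ _ _ _ _ _ h]
            unfold mix
            rw [upd_ne _ _ _ _ _ _ h]
            have hA : Av (j : ℕ) (i : ℕ) i' j' ↔ Av (j : ℕ) ((i : ℕ) + 1) i' j' := by
              unfold Av
              constructor
              · rintro (h4 | ⟨h4, h5⟩)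
                · exact Or.inl h4
                · right
                  refine ⟨h4, ?_⟩
                  have h6 : (i' : ℕ) ≠ i := fun hh => h ⟨Fin.ext hh, Fin.ext h4⟩
                  omega
              · rintro (h4 | ⟨h4, h5⟩)
                · exact Or.inl h4
                · exact Or.inr ⟨h4, by omega⟩
            by_cases h7 : Av (j : ℕ) (i : ℕ) i' j'
            · rw [if_pos h7, if_pos (hA.1 h7)]
            · rw [if_neg h7, if_neg (fun h8 => h7 (hA.2 h8))]
        simp only [h3] at h2
        have hc : (Fintype.card (B i j) : ℝ) ≠ 0 := by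
          have : 0 < Fintype.card (B i j) := Fintype.card_pos_iff.mpr ⟨0⟩
          exact_mod_cast this.ne'
        rw [← sum_div, h2]
        field_simp
      have h4 : H j ((i : ℕ) + 1) - H j i = ∑ s : (∀ i j, B i j), ∑ T : (∀ i, Θ i),
          (Φ (fun i => t i (T i)) (mix (Av j (i + 1)) s (fun i j => x i j (T i) (T j))) -
          (∑ b, Φ (fun i => t i (T i))
            (upd (mix (Av j (i + 1)) s (fun i j => x i j (T i) (T j))) i j b)) /
          Fintype.card (B i j)) := by
        rw [h1, hH]
        simp only [sum_sub_distrib]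
      rw [h4]
      calc |∑ s : (∀ i j, B i j), ∑ T : (∀ i, Θ i),
          (Φ (fun i => t i (T i)) (mix (Av j (i + 1)) s (fun i j => x i j (T i) (T j))) -
          (∑ b, Φ (fun i => t i (T i))
            (upd (mix (Av j (i + 1)) s (fun i j => x i j (T i) (T j))) i j b)) /
          Fintype.card (B i j))| ≤ ∑ s : (∀ i j, B i j), |∑ T : (∀ i, Θ i),
          (Φ (fun i => t i (T i)) (mix (Av j (i + 1)) s (fun i j => x i j (T i) (T j))) -
          (∑ b, Φ (fun i => t i (T i))
            (upd (mix (Av j (i + 1)) s (fun i j => x i j (T i) (T j))) i j b)) /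
          Fintype.card (B i j))| := abs_sum_le_sum_abs _ _
        _ ≤ ∑ _s : (∀ i j, B i j), Pr * e i j := by
            refine sum_le_sum fun s _ => ?_
            have h5 := step_fix hCH1 t x i j hij (η i j) (hη i j) (hx i j hij) Φ hΦ hΦd s
            rw [he, hPr]
            simp only [if_pos hij]
            exact h5
        _ = N * (Pr * e i j) := by
            rw [sum_const, card_univ, nsmul_eq_mul, hN]
    · have h1 : H j ((i : ℕ) + 1) = H j i := by
        rw [hH]
        simp only
        refine sum_congr rfl fun s _ => sum_congr rfl fun T _ => ?_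
        apply hΦd
        intro i' j' hij'
        unfold mix
        have hA : Av (j : ℕ) (i : ℕ) i' j' ↔ Av (j : ℕ) ((i : ℕ) + 1) i' j' := by
          unfold Av
          have h9 : (i' : ℕ) < j' := hij'
          have h10 : (j : ℕ) ≤ i := not_lt.1 hij
          omega
        by_cases h7 : Av (j : ℕ) (i : ℕ) i' j'
        · rw [if_pos h7, if_pos (hA.1 h7)]
        · rw [if_neg h7, if_neg (fun h8 => h7 (hA.2 h8))]
      rw [h1, sub_self, abs_zero, he]
      simp only [if_neg hij, mul_zero, le_refl]
  -- rows
  have hrow : ∀ j : Fin m, |H ((j : ℕ) + 1) 0 - H j 0| ≤ ∑ i, N * (Pr * e i j) := by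
    intro j
    have h1 : H ((j : ℕ) + 1) 0 = H j m := by
      rw [hH]
      simp only
      refine sum_congr rfl fun s _ => sum_congr rfl fun T _ => ?_
      congr 1
      apply upd_ext
      intro i' j'
      unfold mix
      have hA : Av ((j : ℕ) + 1) 0 i' j' ↔ Av (j : ℕ) m i' j' := by
        unfold Av
        have := i'.2
        omega
      by_cases h7 : Av ((j : ℕ) + 1) 0 i' j'
      · rw [if_pos h7, if_pos (hA.1 h7)]
      · rw [if_neg h7, if_neg (fun h8 => h7 (hA.2 h8))]
    rw [h1]
    exact tele m (fun b => H j b) (fun i => N * (Pr * e i j)) fun i => hstep j i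
  have hall := tele m (fun a => H a 0) (fun j => ∑ i, N * (Pr * e i j)) hrow
  have hm0 : H m 0 = N * ∑ T : (∀ i, Θ i), Φ (fun i => t i (T i)) (fun i j => x i j (T i) (T j)) := by
    rw [hH]
    simp only
    have h1 : ∀ s : (∀ i j, B i j), ∑ T : (∀ i, Θ i),
        Φ (fun i => t i (T i)) (mix (Av m 0) s (fun i j => x i j (T i) (T j))) =
        ∑ T : (∀ i, Θ i), Φ (fun i => t i (T i)) (fun i j => x i j (T i) (T j)) := by
      intro s
      refine sum_congr rfl fun T _ => ?_
      congr 1
      apply upd_ext
      intro i' j'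
      unfold mix
      have hA : ¬ Av m 0 i' j' := by
        unfold Av
        have := j'.2
        omega
      rw [if_neg hA]
    simp only [h1]
    rw [sum_const, card_univ, nsmul_eq_mul, hN]
  have h00 : H 0 0 = ∑ T : (∀ i, Θ i), ∑ s : (∀ i j, B i j), Φ (fun i => t i (T i)) s := by
    rw [hH]
    simp only
    rw [sum_comm]
    refine sum_congr rfl fun T _ => sum_congr rfl fun s _ => ?_
    congr 1
    apply upd_ext
    intro i' j'
    unfold mix
    have hA : Av 0 0 i' j' := by
      unfold Av
      omega
    rw [if_pos hA]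
  rw [hm0, h00] at hall
  have hfin : N * |∑ T : (∀ i, Θ i), (Φ (fun i => t i (T i)) (fun i j => x i j (T i) (T j)) -
      (∑ s : (∀ i j, B i j), Φ (fun i => t i (T i)) s) / N)| ≤
      N * (Pr * ∑ i, ∑ j, e i j) := by
    have h1 : N * |∑ T : (∀ i, Θ i), (Φ (fun i => t i (T i)) (fun i j => x i j (T i) (T j)) -
      (∑ s : (∀ i j, B i j), Φ (fun i => t i (T i)) s) / N)| =
      |N * ∑ T : (∀ i, Θ i), (Φ (fun i => t i (T i)) (fun i j => x i j (T i) (T j)) -
      (∑ s : (∀ i j, B i j), Φ (fun i => t i (T i)) s) / N)| := by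
      rw [abs_mul, abs_of_pos hN0]
    have h2 : N * ∑ T : (∀ i, Θ i), (Φ (fun i => t i (T i)) (fun i j => x i j (T i) (T j)) -
      (∑ s : (∀ i j, B i j), Φ (fun i => t i (T i)) s) / N) =
      N * ∑ T : (∀ i, Θ i), Φ (fun i => t i (T i)) (fun i j => x i j (T i) (T j)) -
      ∑ T : (∀ i, Θ i), ∑ s : (∀ i j, B i j), Φ (fun i => t i (T i)) s := by
      rw [sum_sub_distrib, mul_sub, ← sum_div, mul_div_cancel₀ _ hN0.ne']
    rw [h1, h2]
    refine hall.trans (le_of_eq ?_)
    rw [sum_comm]
    simp only [← mul_sum]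
  have hres := le_of_mul_le_mul_left hfin hN0
  rw [hN, hPr, he] at hres
  exact hres

end Pool.Agent.Q190.GR
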